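import Pool.Agent.Y387.SB.Final

/-!
# Asymmetric colourings need many vertices off the main colour, already in maximum degree four

The graph has two vertices `P i 0`, `P i 1` and four vertices `Q i ξ`, `ξ ∈ {0,1}²`, for every
node `i` of the binary tree; `Q i ξ` is joined to `P i (ξ₀ + ξ₁)` and to `P i₀ ξ₀`, `P i₁ ξ₁` for
the children `i₀`, `i₁` of `i`. If the proportion of the nodes with a vertex that does not have
the colour `b` is summable over the levels, then some node has two disjoint infinite rays below
it which avoid all these nodes (mass transport down the tree), and the automorphism which flips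
the signs along the two rays preserves the colouring.
-/

set_option autoImplicit false

namespace Pool.Agent.Results.MP_f836f4_co.DegreeFour

open scoped ENNReal
open Pool.Agent.Y387.SB

universe u

/-- `X` has infinite motion: every automorphism other than the identity moves infinitely many
vertices. -/
def InfiniteMotion {V : Type} (X : SimpleGraph V) : Prop :=
  ∀ σ : X ≃g X, (∃ v, σ v ≠ v) → {v | σ v ≠ v}.Infinite

/-- The colouring `c` (with colours in any set `C`) is asymmetric: the identity is the only
automorphism of the graph `X` that preserves every vertex colour. -/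
def IsAsymmetric {V : Type} (X : SimpleGraph V) {C : Type u} (c : V → C) : Prop :=
  ∀ σ : X ≃g X, (∀ v, c (σ v) = c v) → ∀ v, σ v = v

/-- There is a connected graph of maximum degree four with infinite motion such that, for
every asymmetric colouring `c` with any set of colours, every colour `b` and every root `v₀`, the
proportions of the vertices of the spheres `S_r` about `v₀` which do not have the colour `b` have
divergent sum over `r`; moreover for every sequence `a r ≥ 0` with `∑ a r / (√2) ^ r < ∞`, in
particular for `a r = q ^ r` with `q < √2`, there are more than `a r` such vertices on `S_r` for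
infinitely many `r`. -/
theorem result :
    ∃ (V : Type) (X : SimpleGraph V), X.Connected ∧ (∀ v, (X.neighborSet v).encard ≤ 4) ∧
      InfiniteMotion X ∧
      ∀ (C : Type u) (c : V → C), IsAsymmetric X c → ∀ (b : C) (v₀ : V),
        ∑' r : ℕ, ({v | X.dist v₀ v = r ∧ c v ≠ b}.ncard : ℝ≥0∞) /
          ({v | X.dist v₀ v = r}.ncard : ℝ≥0∞) = ∞ ∧
        (∀ a : ℕ → ℝ, (∀ r, 0 ≤ a r) → Summable (fun r => a r / √2 ^ r) →
          {r : ℕ | a r < ({v | X.dist v₀ v = r ∧ c v ≠ b}.ncard : ℝ)}.Infinite) ∧
        ∀ q : ℝ, 0 ≤ q → q < √2 →
          {r : ℕ | q ^ r < ({v | X.dist v₀ v = r ∧ c v ≠ b}.ncard : ℝ)}.Infinite := by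
  refine ⟨Vtx two, G two, connected, deg_le, infiniteMotion two_ge, ?_⟩
  intro C c hc b v₀
  refine ⟨density v₀ c b hc, sequences v₀ c b hc, ?_⟩
  intro q hq hq'
  apply sequences v₀ c b hc _ (fun r => pow_nonneg hq r)
  have h2 : (0 : ℝ) < √2 := by positivity
  have h3 : (fun r : ℕ => q ^ r / √2 ^ r) = fun r => (q / √2) ^ r := by
    funext r
    rw [div_pow]
  rw [h3]
  exact summable_geometric_of_lt_one (by positivity) ((div_lt_one h2).2 hq')

end Pool.Agent.Results.MP_f836f4_co.DegreeFour
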