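import Pool.Agent.Results.MP_f836f4_co.NoSphereBound

/-!
# Few vertices on every sphere never have a countable pointwise stabiliser

For every function `f : ℕ → ℕ` there is a connected, locally finite rooted graph with infinite motion
in which every set of vertices with at most `f r` vertices on the sphere of radius `r`, for all but
finitely many `r`, has an uncountable pointwise stabiliser (already among the automorphisms that fix
the root).  So for colourings with an arbitrary set of colours and every colour `b`: if all but
finitely many spheres `S_r` contain at most `f r` vertices whose colour is not `b`, then the colouring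
is preserved by uncountably many automorphisms that fix the root.
-/

set_option autoImplicit false

namespace Pool.Agent.Results.MP_f836f4_co.UncountableStabilisers

open Pool.Agent.Results.MP_f836f4_co.NoSphereBound
open Pool.Agent.Results.MP_f836f4_co.NoSphereBound.Vtx

universe u

lemma not_countable_bool_seq : ¬ Countable (ℕ → Bool) := by
  intro h
  obtain ⟨e, he⟩ := (countable_iff_exists_surjective (α := ℕ → Bool)).1 h
  obtain ⟨n, hn⟩ := he fun n => !(e n n)
  have h1 : e n n = !(e n n) := congrFun hn n
  revert h1
  cases e n n <;> decide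

lemma main (f : ℕ → ℕ) (F : Set (Vtx (branch f)))
    (hF : {r : ℕ | (f r : ℕ∞) < {v : Vtx (branch f) | lvl v = r ∧ v ∈ F}.encard}.Finite) :
    ¬ {σ : G (branch f) ≃g G (branch f) | σ root = root ∧ ∀ v ∈ F, σ v = v}.Countable := by
  classical
  let c : Vtx (branch f) → Bool := fun v => decide (v ∈ F)
  have hcF : ∀ v, c v = true ↔ v ∈ F := fun v => decide_eq_true_iff
  have hRed : ∀ r, Red c r = {v : Vtx (branch f) | lvl v = r ∧ v ∈ F} := by
    intro r
    ext v
    exact and_congr_right fun _ => hcF v
  obtain ⟨R, hR⟩ := hF.bddAbove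
  have hred : ∀ r, R < r → (Red c r).encard ≤ f r := by
    intro r hr
    rw [hRed]
    by_contra hlt
    push Not at hlt
    have := hR (show r ∈ {r : ℕ | (f r : ℕ∞) < {v : Vtx (branch f) | lvl v = r ∧ v ∈ F}.encard}
      from hlt)
    omega
  -- two good children of every deep node
  have hch : ∀ d, R ≤ d → ∀ i : Node (branch f) d, ∃ a b : Fin (branch f d), a ≠ b ∧
      ¬ Bad c (d + 1) (i, a) ∧ ¬ Bad c (d + 1) (i, b) := by
    intro d hd i
    have h1 : {j : Fin (branch f d) | Bad c (d + 1) (i, j)}.encard
        ≤ ((f (2 * d + 3) + f (2 * d + 4) : ℕ) : ℕ∞) := by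
      calc {j : Fin (branch f d) | Bad c (d + 1) (i, j)}.encard
          ≤ {k : Node (branch f) (d + 1) | Bad c (d + 1) k}.encard := by
            refine Set.encard_le_encard_of_injOn (f := fun j => (i, j)) ?_ ?_
            · intro j hj
              exact hj
            · intro j _ j' _ h
              exact congrArg Prod.snd h
        _ ≤ _ := bad_encard c (d + 1)
        _ ≤ _ := by
            push_cast
            exact add_le_add (hred _ (by omega)) (hred _ (by omega))
    obtain ⟨a, b, hab, ha, hb⟩ := exists_two (le_refl _) _ h1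
    exact ⟨a, b, hab, ha, hb⟩
  have hch' : ∀ d (i : Node (branch f) d), ∃ a b : Fin (branch f d), a ≠ b ∧
      (R ≤ d → ¬ Bad c (d + 1) (i, a) ∧ ¬ Bad c (d + 1) (i, b)) := by
    intro d i
    by_cases hd : R ≤ d
    · obtain ⟨a, b, h1, h2, h3⟩ := hch d hd i
      exact ⟨a, b, h1, fun _ => ⟨h2, h3⟩⟩
    · refine ⟨⟨0, by unfold branch; omega⟩, ⟨1, by unfold branch; omega⟩, ?_, fun h => absurd h hd⟩
      simp
  choose a b hab hgood using hch'
  -- the chosen child
  let k : (ℕ → Bool) → (d : ℕ) → Node (branch f) d → Fin (branch f d) := fun ε d i =>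
    if ε (d - (R + 2)) = true then a d i else b d i
  have hk : ∀ ε d i, R ≤ d → ¬ Bad c (d + 1) (i, k ε d i) := by
    intro ε d i hd
    show ¬ Bad c (d + 1) (i, if ε (d - (R + 2)) = true then a d i else b d i)
    split_ifs
    · exact (hgood d i hd).1
    · exact (hgood d i hd).2
  -- the labelling
  let g : (ℕ → Bool) → (d : ℕ) → Node (branch f) d → ZMod 2 := fun ε d => Nat.rec (fun _ => 0)
    (fun d gd ij => if d = R + 1 then
      (if Bad c d ij.1 then 0 else if ij.2 = a d ij.1 ∨ ij.2 = b d ij.1 then 1 else 0)
      else (if ij.2 = k ε d ij.1 then gd ij.1 else 0)) d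
  have g0 : ∀ ε i, g ε 0 i = 0 := fun ε i => rfl
  have gs : ∀ ε d (i : Node (branch f) d) (j : Fin (branch f d)), g ε (d + 1) (i, j) =
      if d = R + 1 then
      (if Bad c d i then 0 else if j = a d i ∨ j = b d i then 1 else 0)
      else (if j = k ε d i then g ε d i else 0) := fun ε d i j => rfl
  have gzero : ∀ ε d, d ≤ R + 1 → ∀ i, g ε d i = 0 := by
    intro ε d
    induction d with
    | zero => intro _ i; exact g0 ε i
    | succ d ih =>
      rintro hd ⟨i, j⟩
      rw [gs, if_neg (by omega), ih (by omega)]
      simp
  have gbad : ∀ ε d (i : Node (branch f) d), Bad c d i → g ε d i = 0 := by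
    intro ε d
    induction d with
    | zero => intro i _; exact g0 ε i
    | succ d ih =>
      rintro ⟨i, j⟩ hb
      rw [gs]
      split_ifs with h1 h2 h3 h4
      · rfl
      · exfalso
        have := hgood d i (by omega)
        rcases h3 with h3 | h3
        · exact this.1 (h3 ▸ hb)
        · exact this.2 (h3 ▸ hb)
      · rfl
      · by_cases hd : d ≤ R + 1
        · exact gzero ε d hd i
        · exact absurd hb (h4 ▸ hk ε d i (by omega))
      · rfl
  have gbad' : ∀ ε d (i : Node (branch f) d), Bad c d i → ∀ j, g ε (d + 1) (i, j) = 0 := by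
    intro ε d i hb j
    rw [gs]
    split_ifs with h1 h2
    · rfl
    · exact gbad ε d i hb
    · rfl
  have gsum : ∀ ε d (i : Node (branch f) d), g ε d i = ∑ j, g ε (d + 1) (i, j) := by
    intro ε d i
    simp only [gs]
    by_cases h1 : d = R + 1
    · rw [gzero ε d (by omega) i]
      simp only [if_pos h1]
      by_cases h2 : Bad c d i
      · simp [h2]
      · simp only [if_neg h2]
        have h3 : ∀ j : Fin (branch f d), (if j = a d i ∨ j = b d i then (1 : ZMod 2) else 0) =
            (if j = a d i then 1 else 0) + (if j = b d i then 1 else 0) := by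
          intro j
          by_cases h4 : j = a d i
          · have h5 : j ≠ b d i := fun h => hab d i (h4.symm.trans h)
            simp [h4, hab d i]
          · simp [h4]
        simp only [h3, Finset.sum_add_distrib, Finset.sum_ite_eq', Finset.mem_univ, if_true]
        decide
    · simp [if_neg h1]
  -- a good node of depth `R + 1`
  obtain ⟨i₀, hi₀⟩ : ∃ i : Node (branch f) (R + 1), ¬ Bad c (R + 1) i := by
    have : ∀ d, Nonempty (Node (branch f) d) := by
      intro d
      induction d with
      | zero => exact ⟨()⟩
      | succ d ih =>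
        obtain ⟨i⟩ := ih
        exact ⟨(i, ⟨0, by unfold branch; omega⟩)⟩
    obtain ⟨i⟩ := this R
    exact ⟨(i, a R i), (hgood R i le_rfl).1⟩
  -- on every deep level there is a node with label one
  have hone : ∀ ε n, ∃ i : Node (branch f) (n + (R + 2)), g ε (n + (R + 2)) i = 1 := by
    intro ε n
    induction n with
    | zero =>
      rw [Nat.zero_add]
      refine ⟨(i₀, a (R + 1) i₀), ?_⟩
      have h1 : g ε (R + 1 + 1) (i₀, a (R + 1) i₀) = 1 := by
        rw [gs, if_pos rfl, if_neg hi₀, if_pos (Or.inl rfl)]
      exact h1
    | succ n ih =>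
      obtain ⟨i, hi⟩ := ih
      have h1 : g ε (n + (R + 2) + 1) (i, k ε _ i) = 1 := by
        rw [gs, if_neg (by omega), if_pos rfl, hi]
      have h2 : n + 1 + (R + 2) = n + (R + 2) + 1 := by omega
      rw [h2]
      exact ⟨_, h1⟩
  have hfix : ∀ ε v, v ∈ F → act (g ε) v = v := by
    intro ε v hv
    rw [← hcF] at hv
    match v with
    | root => rfl
    | P d i x =>
      have : g ε d i = 0 := gbad ε d i (Or.inl ⟨x, hv⟩)
      simp [act, this]
    | Q d i ξ =>
      have : ∀ j, g ε (d + 1) (i, j) = 0 := gbad' ε d i (Or.inr ⟨ξ, hv⟩)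
      simp [act, this]
  intro hcount
  let Ψ : (ℕ → Bool) →
      {σ : G (branch f) ≃g G (branch f) | σ root = root ∧ ∀ v ∈ F, σ v = v} := fun ε =>
    ⟨actIso (g ε) (gsum ε), rfl, fun v hv => hfix ε v hv⟩
  have hΨ : Function.Injective Ψ := by
    intro ε ε' h
    have h1 : ∀ v, act (g ε) v = act (g ε') v := by
      intro v
      have h2 := congrArg Subtype.val h
      exact DFunLike.congr_fun h2 v
    have h2 : ∀ d i, g ε d i = g ε' d i := by
      intro d i
      have h3 := h1 (P d i 0)
      change P d i (0 + g ε d i) = P d i (0 + g ε' d i) at h3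
      injection h3 with _ _ h4
      rwa [zero_add, zero_add] at h4
    funext n
    obtain ⟨i, hi⟩ := hone ε n
    have h30 : g ε (n + (R + 2) + 1) (i, k ε _ i) = 1 := by
      rw [gs, if_neg (by omega), if_pos rfl, hi]
    have h31 : g ε (n + (R + 2) + 1) (i, k ε _ i) = g ε' (n + (R + 2) + 1) (i, k ε _ i) :=
      h2 (n + (R + 2) + 1) (i, k ε (n + (R + 2)) i)
    have h3 : g ε' (n + (R + 2) + 1) (i, k ε _ i) = 1 := h31.symm.trans h30
    rw [gs, if_neg (by omega)] at h3
    have h4 : k ε _ i = k ε' _ i := by
      by_contra hne
      rw [if_neg hne] at h3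
      exact absurd h3 (by decide)
    have h5 : (if ε (n + (R + 2) - (R + 2)) = true then a _ i else b _ i) =
        (if ε' (n + (R + 2) - (R + 2)) = true then a _ i else b _ i) := h4
    rw [Nat.add_sub_cancel] at h5
    cases h6 : ε n <;> cases h7 : ε' n
    · rfl
    · rw [h6, h7] at h5
      simp only [Bool.false_eq_true, if_false, if_true] at h5
      exact absurd h5.symm (hab _ i)
    · rw [h6, h7] at h5
      simp only [Bool.false_eq_true, if_false, if_true] at h5
      exact absurd h5 (hab _ i)
    · rfl
  have _ : Countable {σ : G (branch f) ≃g G (branch f) | σ root = root ∧ ∀ v ∈ F, σ v = v} :=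
    hcount.to_subtype
  exact not_countable_bool_seq hΨ.countable

/-- For every function `f : ℕ → ℕ` there is a connected, locally finite rooted graph with infinite
motion such that

* every set `F` of vertices that contains at most `f r` vertices of the sphere of radius `r` about the
  root, for all but finitely many `r`, has an uncountable pointwise stabiliser, even among the
  automorphisms that fix the root;
* for every set `C` of colours, every colouring `c` and every colour `b`, if for all but finitely many
  `r` the sphere of radius `r` contains at most `f r` vertices whose colour is not `b`, then the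
  colouring is preserved by uncountably many automorphisms that fix the root;
* every asymmetric 2-colouring has more than `f r` red vertices on the sphere of radius `r`, for
  infinitely many `r`. -/
theorem result : ∀ f : ℕ → ℕ, ∃ (V : Type) (X : SimpleGraph V) (v₀ : V),
    X.Connected ∧ (∀ v, (X.neighborSet v).Finite) ∧ InfiniteMotion X ∧
      (∀ F : Set V, {r : ℕ | (f r : ℕ∞) < {v : V | X.dist v₀ v = r ∧ v ∈ F}.encard}.Finite →
        ¬ {σ : X ≃g X | σ v₀ = v₀ ∧ ∀ v ∈ F, σ v = v}.Countable) ∧
      (∀ (C : Type u) (c : V → C) (b : C),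
        {r : ℕ | (f r : ℕ∞) < {v : V | X.dist v₀ v = r ∧ c v ≠ b}.encard}.Finite →
          ¬ {σ : X ≃g X | σ v₀ = v₀ ∧ ∀ v, c (σ v) = c v}.Countable) ∧
      ∀ c : V → Bool, IsAsymmetric X c →
        {r : ℕ | (f r : ℕ∞) < {v : V | X.dist v₀ v = r ∧ c v = true}.encard}.Infinite := by
  intro f
  have h1 : ∀ F : Set (Vtx (branch f)),
      {r : ℕ | (f r : ℕ∞) < {v | (G (branch f)).dist root v = r ∧ v ∈ F}.encard}.Finite →
        ¬ {σ : G (branch f) ≃g G (branch f) | σ root = root ∧ ∀ v ∈ F, σ v = v}.Countable := by
    intro F hF
    simp only [dist_root] at hF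
    exact main f F hF
  have h2 : ∀ F : Set (Vtx (branch f)),
      {r : ℕ | (f r : ℕ∞) < {v | (G (branch f)).dist root v = r ∧ v ∈ F}.encard}.Finite →
        ¬ {σ : G (branch f) ≃g G (branch f) | σ root = root ∧
          ∀ (D : Type u) (c : Vtx (branch f) → D) (b : D), (∀ v, c v ≠ b → v ∈ F) →
            ∀ v, c (σ v) = c v}.Countable := by
    intro F hF hcount
    refine h1 F hF (hcount.mono ?_)
    rintro σ ⟨h3, h4⟩
    refine ⟨h3, fun D c b hb v => ?_⟩
    by_cases hv : v ∈ F
    · rw [h4 v hv]
    · have h5 : c v = b := by
        by_contra h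
        exact hv (hb v h)
      by_contra h
      rw [h5] at h
      exact hv (by
        have h6 := h4 (σ v) (hb _ h)
        have h7 : σ v = v := σ.injective h6
        rw [← h7]
        exact hb _ h)
  refine ⟨Vtx (branch f), G (branch f), root, connected, locallyFinite,
    infiniteMotion (fun d => by unfold branch; omega), h1, ?_, ?_⟩
  · intro C c b hc hcount
    refine h2 {v | c v ≠ b} hc (hcount.mono ?_)
    rintro σ ⟨h3, h4⟩
    exact ⟨h3, h4 C c b fun v hv => hv⟩
  · intro c hc hfin
    refine h1 {v | c v = true} hfin ((Set.countable_singleton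
      (1 : G (branch f) ≃g G (branch f))).mono ?_)
    rintro σ ⟨-, h4⟩
    rw [Set.mem_singleton_iff]
    refine RelIso.ext fun v => ?_
    refine hc σ (fun v => ?_) v
    cases h5 : c v with
    | true => rw [h4 v h5]; exact h5
    | false =>
      cases h6 : c (σ v) with
      | false => rfl
      | true =>
        have h7 : σ v = v := σ.injective (h4 (σ v) h6)
        rw [h7, h5] at h6
        exact absurd h6 (by decide)

end Pool.Agent.Results.MP_f836f4_co.UncountableStabilisers
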